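import Mathlib

/-!
# MP_8ae0c1_ag: the definitions of the statement

The fibration `X -> B` with generic fibre `x w^2 = v0^4 + v1^4 + v2^4` in `P(1, 1, 1, 2)` over the
function field of the elliptic curve `B : y^2 = x (x - 1) (x - l)`, its sections, the Zariski
topology of the space of sections of height `d`, and the counting function.
-/

set_option autoImplicit false

namespace Pool.Agent.Lib.MP_8ae0c1_agS

open Polynomial

section Generic

variable {L : Type} [Field L]

/-- The quartic form `f = v0^4 + v1^4 + v2^4`. -/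
def quart (v : Fin 3 → L) : L := v 0 ^ 4 + v 1 ^ 4 + v 2 ^ 4

/-- Coordinates `(v, w)` of points of the surface `x w^2 = f(v)` over the field `L`. -/
def Sol0 (x : L) : Type := {p : (Fin 3 → L) × L // p.1 ≠ 0 ∧ x * p.2 ^ 2 = quart p.1}

/-- Two coordinate vectors give the same point of the weighted projective space `P(1,1,1,2)`. -/
def Sol0.Rel {x : L} (p q : Sol0 x) : Prop :=
  ∃ g : L, g ≠ 0 ∧ q.1.1 = g • p.1.1 ∧ q.1.2 = g ^ 2 * p.1.2

theorem Sol0.rel_equiv (x : L) : Equivalence (Sol0.Rel (x := x)) where
  refl p := ⟨1, one_ne_zero, by simp, by simp⟩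
  symm := by
    rintro p q ⟨g, hg, h1, h2⟩
    refine ⟨g⁻¹, inv_ne_zero hg, ?_, ?_⟩
    · rw [h1, smul_smul, inv_mul_cancel₀ hg, one_smul]
    · rw [h2]
      field_simp
  trans := by
    rintro p q r ⟨g, hg, h1, h2⟩ ⟨h, hh, h3, h4⟩
    refine ⟨h * g, mul_ne_zero hh hg, ?_, ?_⟩
    · rw [h3, h1, smul_smul]
    · rw [h4, h2]
      ring

/-- The points of the surface `x w^2 = f(v)` over `L`. -/
def Pts (x : L) : Type := Quotient (⟨Sol0.Rel, Sol0.rel_equiv x⟩ : Setoid (Sol0 x))

/-- `(v, u)` are coordinates of the point `s`: `s = [v : w]` and `u = x w`. -/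
def Pts.Has {x : L} (s : Pts x) (v : Fin 3 → L) (u : L) : Prop :=
  ∃ p : Sol0 x, (Quotient.mk _ p : Pts x) = s ∧ p.1.1 = v ∧ x * p.1.2 = u

/-- The curves in the projective plane over `L`. -/
def PlaneCurve (L : Type) [Field L] : Type :=
  {H : MvPolynomial (Fin 3) L // H ≠ 0 ∧ ∃ n, H.IsHomogeneous n}

/-- The point `v` lies on the curve. -/
def PlaneCurve.On (H : PlaneCurve L) (v : Fin 3 → L) : Prop := MvPolynomial.eval v H.1 = 0

end Generic

variable {F : Type} [Field F]

/-- The Legendre curve `y^2 = x (x - 1) (x - l) = x^3 - (1 + l) x^2 + l x`, as Weierstrass curve with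
the coefficients `a1 = 0, a2 = -(1 + l), a3 = 0, a4 = l, a6 = 0`. -/
abbrev W (l : F) : WeierstrassCurve.Affine F := ⟨0, -(1 + l), 0, l, 0⟩

/-- The coordinate ring of the affine curve `y^2 = x (x - 1) (x - l)`. -/
abbrev R (l : F) : Type := (W l).CoordinateRing

/-- The function field of the curve. -/
abbrev K (l : F) : Type := (W l).FunctionField

/-- The inclusion of the coordinate ring in the function field. -/
noncomputable def toK (l : F) (f : R l) : K l := algebraMap (R l) (K l) f

/-- The function `x` in the coordinate ring. -/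
noncomputable def xR (l : F) : R l := WeierstrassCurve.Affine.CoordinateRing.mk (W l) (C X)

/-- Affine points of the curve. -/
def Pt (l : F) : Type := {P : F × F // P.2 ^ 2 = P.1 * (P.1 - 1) * (P.1 - l)}

theorem ev_aux (l : F) (P : Pt l) :
    eval₂ (evalRingHom P.1.1) P.1.2 (W l).polynomial = 0 := by
  have h := P.2
  simp only [WeierstrassCurve.Affine.polynomial, W, eval₂_sub, eval₂_add, eval₂_pow, eval₂_X,
    eval₂_mul, eval₂_C, coe_evalRingHom, eval_add, eval_mul, eval_C, eval_X, eval_pow]
  linear_combination h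

/-- Evaluation of functions at an affine point. -/
noncomputable def ev (l : F) (P : Pt l) : R l →+* F :=
  AdjoinRoot.lift (evalRingHom P.1.1) P.1.2 (ev_aux l P)

/-- Order of the pole at infinity of an element of the coordinate ring
(the degree of its norm to `F[x]`; `x` has order 2, `y` has order 3). -/
noncomputable def pole (l : F) (f : R l) : ℕ := (Algebra.norm F[X] f).natDegree

/-- The `K`-points of the generic fibre `X_eta : x w^2 = f(v)`, that is the sections of `X -> B`. -/
def Sec (l : F) : Type := Pts (toK l (xR l))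

/-- `(v, u)` are regular coordinates of the section `s`: `s = [v : w]` with `v` in `R^3` and
`u = x w` in `R`. -/
def IsRep (l : F) (s : Sec l) (v : Fin 3 → R l) (u : R l) : Prop :=
  Pts.Has s (fun i => toK l (v i)) (toK l u)

/-- The section is given by three sections of a line bundle of degree `n` on the projective curve
(every line bundle of degree `n` is `O(n oo)` or `O((n+1) oo - Q)` with `Q` an affine point). -/
def HasRep (l : F) (s : Sec l) (n : ℕ) : Prop :=
  ∃ (v : Fin 3 → R l) (u : R l), IsRep l s v u ∧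
    ((∀ i, pole l (v i) ≤ n) ∨
      ((∀ i, pole l (v i) ≤ n + 1) ∧ ∃ Q : Pt l, ∀ i, ev l Q (v i) = 0))

/-- The anticanonical height `-K_{X/B} . C = deg` of the composed map `B -> X -> P^2` is `d`. -/
def HasHeight (l : F) (s : Sec l) (d : ℕ) : Prop :=
  HasRep l s d ∧ ∀ n, n < d → ¬ HasRep l s n

/-- The space of sections of height `d`. -/
def SecD (l : F) (d : ℕ) : Type := {s : Sec l // HasHeight l s d}

/-- `c = (v, w)` in `F^4` are coordinates of the value of `s` at the affine point `P`, `x(P)` not 0,
in the fibre `X_P : x(P) w^2 = f(v)`. -/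
def Coord (l : F) (s : Sec l) (P : Pt l) (c : Fin 4 → F) : Prop :=
  ∃ (v : Fin 3 → R l) (u : R l), IsRep l s v u ∧ (∃ i, ev l P (v i) ≠ 0) ∧
    c 0 = ev l P (v 0) ∧ c 1 = ev l P (v 1) ∧ c 2 = ev l P (v 2) ∧ P.1.1 * c 3 = ev l P u

/-- Affine points with `x(P)` not zero. -/
def Pt0 (l : F) : Type := {P : Pt l // P.1.1 ≠ 0}

/-- The Zariski closed subset of the space of sections given by a polynomial `G` in the
coordinates of the values at the points `P_1, .., P_m`. -/
def zero (l : F) (d m : ℕ) (P : Fin m → Pt0 l) (G : MvPolynomial (Fin m × Fin 4) F) :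
    Set (SecD l d) :=
  {s | ∀ c : Fin m × Fin 4 → F, (∀ k, Coord l s.1 (P k).1 (fun j => c (k, j))) →
    MvPolynomial.eval c G = 0}

/-- The Zariski topology of the space of sections of height `d`. -/
instance topSecD (l : F) (d : ℕ) : TopologicalSpace (SecD l d) :=
  TopologicalSpace.generateFrom
    {U | ∃ (m : ℕ) (P : Fin m → Pt0 l) (G : MvPolynomial (Fin m × Fin 4) F),
      U = (zero l d m P G)ᶜ}

/-- The union of the sections in `M` lies in a surface: the images of the sections under the finite
map `X -> P^2 x B` lie in the zero set of a nonzero homogeneous polynomial `H` over `K`. -/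
def InSurface (l : F) (d : ℕ) (M : Set (SecD l d)) : Prop :=
  ∃ H : PlaneCurve (K l), ∀ s ∈ M, ∀ v u, IsRep l s.1 v u → H.On fun i => toK l (v i)

/-- `q ^ dim M`, with the Krull dimension of the topological space `M`. -/
noncomputable def wt {T : Type} [TopologicalSpace T] (q : ℝ) (M : Set T) : ENNReal :=
  ⨆ (n : ℕ) (_ : (n : WithBot ℕ∞) ≤ topologicalKrullDim M), ENNReal.ofReal (q ^ n)

/-- The counting function `N(X, -K_{X/B}, q, d)` for the sets `Man i` of Manin components. -/
noncomputable def Ncount (l : ℂ) (Man : (i : ℕ) → Set (Set (SecD l i))) (q : ℝ) (d : ℕ) : ENNReal :=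
  ∑ i ∈ Finset.Icc 1 d, ∑' M : Man i, wt q M.1

end Pool.Agent.Lib.MP_8ae0c1_agS
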