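import Pool.Agent.Lib.MP_8ae0c1_agS.Stmt
import Pool.Agent.Lib.MP_8ae0c1_agG.Final

/-!
# MP_8ae0c1_ag: the definitions of the statement unfold to the ones used in the proof
-/

set_option autoImplicit false

namespace Pool.Agent.Lib.MP_8ae0c1_agS

theorem secD_eq {F : Type} [Field F] (l : F) (d : ℕ) :
    SecD l d = Pool.Agent.Lib.MP_8ae0c1_ag.SecD l d := rfl

theorem topSecD_eq {F : Type} [Field F] (l : F) (d : ℕ) : topSecD l d =
    Pool.Agent.Lib.MP_8ae0c1_ag.instTopologicalSpaceSecD l d := rfl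

theorem inSurface_iff {F : Type} [Field F] (l : F) (d : ℕ) (M : Set (SecD l d)) :
    InSurface l d M ↔ Pool.Agent.Lib.MP_8ae0c1_ag.InSurface l d M := by
  constructor
  · rintro ⟨H, hH⟩
    obtain ⟨H, h0, n, hn⟩ := H
    exact ⟨n, H, h0, hn, fun s hs v u hv => hH s hs v u hv⟩
  · rintro ⟨n, H, h0, hn, h⟩
    exact ⟨⟨H, h0, n, hn⟩, fun s hs v u hv => h s hs v u hv⟩

theorem ncount_eq (l : ℂ) (Man : (i : ℕ) → Set (Set (SecD l i))) (q : ℝ) (d : ℕ) :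
    Ncount l Man q d = Pool.Agent.Lib.MP_8ae0c1_ag.Ncount l Man q d := rfl

theorem ncount_lt_top (l : ℂ) (hl : Transcendental ℚ l) (Man : (i : ℕ) → Set (Set (SecD l i)))
    (hMan : ∀ i, Man i ⊆ irreducibleComponents (SecD l i)) (q : ℝ) (hq : 1 < q) (d : ℕ) :
    Ncount l Man q d < ⊤ :=
  Pool.Agent.Lib.MP_8ae0c1_agG.ncount_lt_top hl Man hMan q hq d

theorem no_limit (l : ℂ) (hl : Transcendental ℚ l) (Man : (i : ℕ) → Set (Set (SecD l i)))
    (hSurf : ∀ i, ∀ M ∈ irreducibleComponents (SecD l i), ¬ InSurface l i M → M ∈ Man i) :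
    ∃ Q : ℝ, ∀ q : ℝ, 1 < q → Q ≤ q → ¬ ∃ C : ℝ,
      Filter.Tendsto (fun d : ℕ => Ncount l Man q d / ENNReal.ofReal (q ^ d)) Filter.atTop
        (nhds (ENNReal.ofReal C)) :=
  Pool.Agent.Lib.MP_8ae0c1_agG.no_limit hl Man
    fun i M hM h => hSurf i M hM fun h' => h ((inSurface_iff l i M).1 h')

end Pool.Agent.Lib.MP_8ae0c1_agS
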